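import Mathlib
import Pool.Agent.MP_16de82_co.h72.Final

set_option autoImplicit false

namespace Pool.Agent.Results.MP_16de82_co.TwiceBases

/-- Any `2p - 2` invertible matrices over a field of characteristic `p` contain an Alon-Tarsi
basis, even after deleting any `p - 1` of their columns. -/
theorem result :
    ∀ (F : Type) [Field F] (p : ℕ), p.Prime → CharP F p →
      ∀ (n : ℕ) (B : Fin (2 * p - 2) → Matrix (Fin n) (Fin n) F),
        (∀ i, (B i).det ≠ 0) →
        ∀ D : Finset (Fin (2 * p - 2) × Fin n), D.card ≤ p - 1 →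
          ∃ f : (Fin (p - 1) × Fin n) ↪ (Fin (2 * p - 2) × Fin n), (∀ y, f y ∉ D) ∧
            (Matrix.of fun (x y : Fin (p - 1) × Fin n) =>
              B (f y).1 x.2 (f y).2).permanent ≠ 0 :=
  fun F _ p hp _ n B hB D hD => Pool.Agent.MP_16de82_co.h72.twice_bases F p hp n B hB D hD

end Pool.Agent.Results.MP_16de82_co.TwiceBases
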